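import Mathlib

namespace Pool.Agent.H76D

open Finset

theorem count_le (r : ℕ → ℕ) (Q : Finset ℕ) (hQ : ∀ q ∈ Q, q.Prime) :
    ((range (∏ q ∈ Q, q)).filter (fun n => ∀ q ∈ Q, ¬ n ≡ r q [MOD q])).card ≤
      ∏ q ∈ Q, (q - 1) := by
  classical
  induction Q using Finset.induction_on with
  | empty => simp
  | insert q Q hq ih =>
    have hq0 : q.Prime := hQ q (mem_insert_self _ _)
    have hQ' : ∀ t ∈ Q, t.Prime := fun t ht => hQ t (mem_insert_of_mem ht)
    have hcop : Nat.Coprime q (∏ t ∈ Q, t) := by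
      apply Nat.Coprime.prod_right
      intro t ht
      exact (Nat.coprime_primes hq0 (hQ' t ht)).2 (fun h => hq (h ▸ ht))
    rw [prod_insert hq, prod_insert hq]
    set M := ∏ t ∈ Q, t with hM
    have hMpos : 0 < M := prod_pos fun t ht => (hQ' t ht).pos
    have hcard : (((range q).erase (r q % q)) ×ˢ
        ((range M).filter (fun n => ∀ t ∈ Q, ¬ n ≡ r t [MOD t]))).card ≤
          (q - 1) * ∏ t ∈ Q, (t - 1) := by
      rw [card_product, card_erase_of_mem (mem_range.2 (Nat.mod_lt _ hq0.pos)), card_range]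
      exact Nat.mul_le_mul_left _ (ih hQ')
    refine le_trans (card_le_card_of_injOn (fun n => (n % q, n % M)) ?_ ?_) hcard
    · intro n hn
      rw [mem_coe, mem_filter, mem_range] at hn
      obtain ⟨hn, hn2⟩ := hn
      rw [mem_coe, mem_product, mem_erase, mem_range, mem_filter, mem_range]
      refine ⟨⟨?_, Nat.mod_lt _ hq0.pos⟩, Nat.mod_lt _ hMpos, ?_⟩
      · exact fun h => hn2 q (mem_insert_self _ _) h
      · intro t ht h
        refine hn2 t (mem_insert_of_mem ht) ?_
        have hdvd : t ∣ M := dvd_prod_of_mem _ ht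
        have h1 : n % M ≡ n [MOD t] := (Nat.mod_modEq n M).of_dvd hdvd
        exact h1.symm.trans h
    · intro n hn m hm h
      rw [mem_coe, mem_filter, mem_range] at hn hm
      simp only [Prod.mk.injEq] at h
      have h1 : n ≡ m [MOD q] := h.1
      have h2 : n ≡ m [MOD M] := h.2
      have h3 : n ≡ m [MOD q * M] := (Nat.modEq_and_modEq_iff_modEq_mul hcop).1 ⟨h1, h2⟩
      exact h3.eq_of_lt_of_lt hn.1 hm.1

theorem block (p : ℕ → Prop) [DecidablePred p] (M : ℕ) (hp : Function.Periodic p M) (K : ℕ) :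
    ((range (K * M)).filter p).card = K * ((range M).filter p).card := by
  induction K with
  | zero => simp
  | succ K ih =>
    have h1 : range ((K + 1) * M) = range (K * M) ∪ Ico (K * M) (K * M + M) := by
      ext x; simp only [mem_range, mem_union, mem_Ico]
      constructor
      · intro h; by_cases h' : x < K * M
        · exact Or.inl h'
        · right; refine ⟨by omega, ?_⟩; nlinarith
      · rintro (h | h)
        · nlinarith
        · nlinarith [h.2]
    have hd : Disjoint ((range (K * M)).filter p) ((Ico (K * M) (K * M + M)).filter p) := by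
      apply disjoint_filter_filter
      rw [disjoint_left]; intro x hx hy
      rw [mem_range] at hx; rw [mem_Ico] at hy; omega
    rw [h1, filter_union, card_union_of_disjoint hd, ih,
      Nat.filter_Ico_card_eq_of_periodic _ _ _ hp, Nat.count_eq_card_filter_range]
    ring

theorem dens (P : Set ℕ) (hP : ∀ q ∈ P, q.Prime)
    (hs : ¬ Summable (fun q : ℕ => Set.indicator P (fun q => (1 : ℝ) / q) q)) (r : ℕ → ℕ) (b : ℕ)
    (ε : ℝ) (hε : 0 < ε) : ∃ Q : Finset ℕ, (∀ q ∈ Q, q ∈ P ∧ b < q) ∧ ∃ N₀ : ℕ, ∀ N ≥ N₀,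
      (((Finset.range N).filter (fun n => ∀ q ∈ Q, ¬ n ≡ r q [MOD q])).card : ℝ) ≤ ε * N := by
  classical
  have hnn : ∀ q : ℕ, 0 ≤ Set.indicator P (fun q => (1 : ℝ) / q) q := by
    intro q; exact Set.indicator_nonneg (fun q _ => by positivity) q
  -- a finite set with a large sum
  obtain ⟨S, hS⟩ : ∃ S : Finset ℕ, Real.log (2 / ε) + (b + 1) <
      ∑ q ∈ S, Set.indicator P (fun q => (1 : ℝ) / q) q := by
    by_contra hcon
    push Not at hcon
    exact hs (summable_of_sum_le hnn hcon)
  set Q := S.filter (fun q => q ∈ P ∧ b < q) with hQdef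
  have hQ : ∀ q ∈ Q, q ∈ P ∧ b < q := fun q hq => (mem_filter.1 hq).2
  have hQp : ∀ q ∈ Q, q.Prime := fun q hq => hP q (hQ q hq).1
  have hsum : Real.log (2 / ε) < ∑ q ∈ Q, (1 : ℝ) / q := by
    have h1 : ∑ q ∈ S, Set.indicator P (fun q => (1 : ℝ) / q) q ≤
        ∑ q ∈ Q, (1 : ℝ) / q + ∑ q ∈ range (b + 1), (1 : ℝ) := by
      have h2 : ∑ q ∈ S, Set.indicator P (fun q => (1 : ℝ) / q) q ≤
          ∑ q ∈ Q ∪ range (b + 1), Set.indicator P (fun q => (1 : ℝ) / q) q := by
        rw [← sum_filter_add_sum_filter_not S (fun q => q ∈ P ∧ b < q)]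
        have h3 : ∑ q ∈ S.filter (fun q => ¬ (q ∈ P ∧ b < q)),
            Set.indicator P (fun q => (1 : ℝ) / q) q ≤
            ∑ q ∈ (Q ∪ range (b + 1)) \ Q, Set.indicator P (fun q => (1 : ℝ) / q) q := by
          rw [← sum_filter_add_sum_filter_not (S.filter (fun q => ¬ (q ∈ P ∧ b < q))) (fun q => q ∈ P)]
          have h4 : ∑ q ∈ (S.filter (fun q => ¬ (q ∈ P ∧ b < q))).filter (fun q => ¬ q ∈ P),
              Set.indicator P (fun q => (1 : ℝ) / q) q = 0 := by
            apply sum_eq_zero; intro q hq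
            exact Set.indicator_of_notMem (mem_filter.1 hq).2 _
          rw [h4, add_zero]
          apply sum_le_sum_of_subset_of_nonneg
          · intro q hq
            rw [mem_filter, mem_filter] at hq
            obtain ⟨⟨h5, h6⟩, h7⟩ := hq
            have h8 : q ≤ b := by
              by_contra h9; exact h6 ⟨h7, not_le.1 h9⟩
            rw [mem_sdiff, mem_union, mem_range]
            exact ⟨Or.inr (by omega), fun h9 => h6 (hQ q h9)⟩
          · intro q _ _; exact hnn q
        have h10 := sum_sdiff (f := fun q => Set.indicator P (fun q => (1 : ℝ) / q) q)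
          (subset_union_left : Q ⊆ Q ∪ range (b + 1))
        rw [← h10, add_comm]
        exact add_le_add h3 le_rfl
      refine h2.trans ?_
      have h11 : ∑ q ∈ Q ∪ range (b + 1), Set.indicator P (fun q => (1 : ℝ) / q) q ≤
          ∑ q ∈ Q, Set.indicator P (fun q => (1 : ℝ) / q) q +
          ∑ q ∈ range (b + 1), Set.indicator P (fun q => (1 : ℝ) / q) q := by
        rw [← sum_union_inter]
        exact le_add_of_nonneg_right (sum_nonneg fun q _ => hnn q)
      refine h11.trans (add_le_add ?_ ?_)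
      · apply sum_le_sum; intro q hq
        rw [Set.indicator_of_mem (hQ q hq).1]
      · apply sum_le_sum; intro q _
        by_cases h : q ∈ P
        · rw [Set.indicator_of_mem h]
          have : (1 : ℝ) ≤ q := by exact_mod_cast (hP q h).one_lt.le
          rw [div_le_one (by linarith)]; exact this
        · rw [Set.indicator_of_notMem h]; norm_num
    rw [sum_const, card_range, nsmul_eq_mul, mul_one] at h1
    push_cast at h1
    linarith
  set M := ∏ q ∈ Q, q with hM
  have hMpos : 0 < M := prod_pos fun q hq => (hQp q hq).pos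
  have hMR : (0 : ℝ) < M := by exact_mod_cast hMpos
  -- the product
  have hprod : ((∏ q ∈ Q, (q - 1) : ℕ) : ℝ) ≤ ε / 2 * M := by
    have h1 : ((∏ q ∈ Q, (q - 1) : ℕ) : ℝ) = (∏ q ∈ Q, (1 - (1 : ℝ) / q)) * M := by
      rw [hM]; push_cast
      rw [← prod_mul_distrib]
      apply prod_congr rfl
      intro q hq
      have hq1 : 1 ≤ q := (hQp q hq).one_lt.le
      have hq0 : (q : ℝ) ≠ 0 := by
        have := (hQp q hq).pos; positivity
      rw [Nat.cast_sub hq1]
      field_simp
      try simp
    rw [h1]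
    apply mul_le_mul_of_nonneg_right _ hMR.le
    have h2 : ∏ q ∈ Q, (1 - (1 : ℝ) / q) ≤ ∏ q ∈ Q, Real.exp (-(1 / q)) := by
      apply prod_le_prod
      · intro q hq
        have : (1 : ℝ) ≤ q := by exact_mod_cast (hQp q hq).one_lt.le
        rw [sub_nonneg, div_le_one (by linarith)]; exact this
      · intro q hq
        have := Real.add_one_le_exp (-(1 / (q : ℝ)))
        linarith
    refine h2.trans ?_
    rw [← Real.exp_sum, sum_neg_distrib]
    have h3 : Real.exp (-∑ q ∈ Q, 1 / (q : ℝ)) ≤ Real.exp (-Real.log (2 / ε)) := by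
      apply Real.exp_le_exp.2; linarith
    refine h3.trans (le_of_eq ?_)
    rw [Real.exp_neg, Real.exp_log (by positivity), inv_div]
  refine ⟨Q, hQ, M, fun N hN => ?_⟩
  have hper : Function.Periodic (fun n => ∀ q ∈ Q, ¬ n ≡ r q [MOD q]) M := by
    intro n
    apply propext
    constructor
    · intro h q hq h'
      refine h q hq ?_
      have hdvd : q ∣ M := dvd_prod_of_mem _ hq
      have : n + M ≡ n [MOD q] := by
        obtain ⟨c, hc⟩ := hdvd
        rw [hc]; unfold Nat.ModEq; simp
      exact this.trans h'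
    · intro h q hq h'
      refine h q hq ?_
      have hdvd : q ∣ M := dvd_prod_of_mem _ hq
      have : n + M ≡ n [MOD q] := by
        obtain ⟨c, hc⟩ := hdvd
        rw [hc]; unfold Nat.ModEq; simp
      exact this.symm.trans h'
  have h1 : ((range N).filter (fun n => ∀ q ∈ Q, ¬ n ≡ r q [MOD q])).card ≤
      (N / M + 1) * ∏ q ∈ Q, (q - 1) := by
    refine le_trans (card_le_card (filter_subset_filter _ (range_subset_range.2 ?_)))
      (le_trans (block _ M hper (N / M + 1)).le (Nat.mul_le_mul_left _ (count_le r Q hQp)))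
    have := Nat.div_add_mod N M
    have h2 := Nat.mod_lt N hMpos
    nlinarith
  have h2 : (((range N).filter (fun n => ∀ q ∈ Q, ¬ n ≡ r q [MOD q])).card : ℝ) ≤
      ((N / M + 1 : ℕ) : ℝ) * ((∏ q ∈ Q, (q - 1) : ℕ) : ℝ) := by exact_mod_cast h1
  refine h2.trans ?_
  have h3 : ((N / M + 1 : ℕ) : ℝ) * M ≤ 2 * N := by
    have h4 : (N / M + 1) * M ≤ 2 * N := by
      have := Nat.div_mul_le_self N M
      nlinarith
    exact_mod_cast h4
  calc ((N / M + 1 : ℕ) : ℝ) * ((∏ q ∈ Q, (q - 1) : ℕ) : ℝ)
      ≤ ((N / M + 1 : ℕ) : ℝ) * (ε / 2 * M) := by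
        apply mul_le_mul_of_nonneg_left hprod (by positivity)
    _ = ε / 2 * (((N / M + 1 : ℕ) : ℝ) * M) := by ring
    _ ≤ ε / 2 * (2 * N) := by
        apply mul_le_mul_of_nonneg_left h3 (by positivity)
    _ = ε * N := by ring

end Pool.Agent.H76D
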